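import Pool.Agent.H19.OM.Stm
import Pool.Agent.H23.OM.Crt

/-!
# Project OM, module INT, the empirical part
-/

set_option autoImplicit false

namespace Pool.Agent.H15.OM

open Finset hiding val
open Pool.Agent.H19.OM

/-- the emp part of `S_INT` -/
def S_EMP : Prop := ∀ (y M L N k : ℕ), 1 ≤ N → 1 ≤ L → 1 ≤ M → M ≤ y → 1 ≤ k → ∀ φ : (Fin k → ℕ) → ℝ, Bd φ →
  |emp y N φ - J (cap M L) (prs 0 M ∪ prs M y) φ| ≤
    2 * k * (2 / (2 : ℝ) ^ L + 1 / M + y / N) + 2 * Mo (cap M L) (prs 0 M ∪ prs M y) / N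

/-- sums of a bounded periodic function -/
theorem per_sum (f : ℕ → ℝ) (D N : ℕ) (hD : 0 < D) (hN : 0 < N) (hf : ∀ n, f (n + D) = f n)
    (hb : ∀ n, |f n| ≤ 1) :
    |(∑ n ∈ range N, f n) / N - (∑ n ∈ range D, f n) / D| ≤ 2 * D / N := by
  have hper : ∀ q n, f (n + q * D) = f n := by
    intro q
    induction q with
    | zero => intro n; simp
    | succ q ih =>
      intro n
      rw [Nat.succ_mul, ← add_assoc, hf, ih]
  have hblk : ∀ q r, ∑ n ∈ range (q * D + r), f n =
      q * (∑ n ∈ range D, f n) + ∑ n ∈ range r, f n := by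
    intro q r
    have h1 : ∀ q, ∑ n ∈ range (q * D), f n = q * (∑ n ∈ range D, f n) := by
      intro q
      induction q with
      | zero => simp
      | succ q ih =>
        rw [Nat.succ_mul, Finset.sum_range_add, ih]
        have : ∑ x ∈ range D, f (q * D + x) = ∑ n ∈ range D, f n :=
          Finset.sum_congr rfl fun n _ => by rw [add_comm]; exact hper q n
        rw [this]
        push_cast
        ring
    rw [Finset.sum_range_add, h1]
    congr 1
    exact Finset.sum_congr rfl fun n _ => by rw [add_comm]; exact hper q n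
  have hbd : ∀ m : ℕ, |∑ n ∈ range m, f n| ≤ m := by
    intro m
    refine (Finset.abs_sum_le_sum_abs _ _).trans ?_
    refine (Finset.sum_le_sum fun n _ => hb n).trans ?_
    simp
  obtain ⟨q, r, hr, hqr⟩ : ∃ q r, r < D ∧ N = q * D + r :=
    ⟨N / D, N % D, Nat.mod_lt _ hD, by rw [mul_comm]; exact (Nat.div_add_mod N D).symm⟩
  set G := ∑ n ∈ range D, f n with hG
  set R := ∑ n ∈ range r, f n with hR
  have hsum : ∑ n ∈ range N, f n = q * G + R := by rw [hqr]; exact hblk q r
  have hD' : (0 : ℝ) < D := by exact_mod_cast hD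
  have hN' : (0 : ℝ) < N := by exact_mod_cast hN
  have hNr : (N : ℝ) = q * D + r := by rw [hqr]; push_cast; ring
  have e : (∑ n ∈ range N, f n) / N - G / D = (R - r * (G / D)) / N := by
    rw [hsum]
    field_simp
    rw [hNr]
    ring
  rw [e, abs_div, abs_of_pos hN']
  apply div_le_div_of_nonneg_right _ hN'.le
  have h1 : |R| ≤ r := hbd r
  have h2 : |G / D| ≤ 1 := by
    rw [abs_div, abs_of_pos hD', div_le_one hD']
    exact hbd D
  have h3 : (r : ℝ) ≤ D := by exact_mod_cast hr.le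
  have h4 : |(r : ℝ) * (G / D)| ≤ r := by
    rw [abs_mul, abs_of_nonneg (Nat.cast_nonneg r)]
    exact mul_le_of_le_one_right (Nat.cast_nonneg r) h2
  calc |R - r * (G / D)| ≤ |R| + |(r : ℝ) * (G / D)| := abs_sub _ _
    _ ≤ r + r := add_le_add h1 h4
    _ ≤ 2 * D := by linarith

/-- multiples of `d` among `N` consecutive integers -/
theorem cnt_dvd (d N i : ℕ) (hd : 0 < d) :
    (((Icc 1 N).filter (fun n => d ∣ n + i)).card : ℝ) ≤ N / d + 1 := by
  have h1 : ((Icc 1 N).filter (fun n => d ∣ n + i)).card =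
      ((Ioc i (N + i)).filter (fun n => d ∣ n)).card := by
    apply Finset.card_bij (fun n _ => n + i)
    · intro n hn
      simp only [mem_filter, mem_Icc, mem_Ioc] at hn ⊢
      exact ⟨⟨by omega, by omega⟩, hn.2⟩
    · intro a _ b _ h
      omega
    · intro n hn
      simp only [mem_filter, mem_Ioc] at hn
      refine ⟨n - i, ?_, by omega⟩
      simp only [mem_filter, mem_Icc]
      refine ⟨⟨by omega, by omega⟩, ?_⟩
      rw [Nat.sub_add_cancel (by omega)]
      exact hn.2
  have h2 : ((Ioc i (N + i)).filter (fun n => d ∣ n)).card + i / d = (N + i) / d := by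
    rw [← Nat.Ioc_filter_dvd_card_eq_div (N + i) d, ← Nat.Ioc_filter_dvd_card_eq_div i d,
      ← Finset.card_union_of_disjoint]
    · congr 1
      ext n
      simp only [mem_union, mem_filter, mem_Ioc]
      constructor
      · rintro (⟨⟨h, h'⟩, h''⟩ | ⟨⟨h, h'⟩, h''⟩)
        · exact ⟨⟨by omega, by omega⟩, h''⟩
        · exact ⟨⟨by omega, by omega⟩, h''⟩
      · rintro ⟨⟨h, h'⟩, h''⟩
        rcases Nat.lt_or_ge i n with h3 | h3
        · exact Or.inl ⟨⟨h3, h'⟩, h''⟩
        · exact Or.inr ⟨⟨h, h3⟩, h''⟩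
    · rw [Finset.disjoint_left]
      intro n hn hn'
      simp only [mem_filter, mem_Ioc] at hn hn'
      omega
  have h3 : (N + i) / d ≤ N / d + i / d + 1 := by
    have := Nat.div_add_mod N d
    have h5 := Nat.div_add_mod i d
    have h6 := Nat.mod_lt N hd
    have h7 := Nat.mod_lt i hd
    rw [Nat.div_le_iff_le_mul_add_pred hd]
    have e : d * (N / d + i / d + 1) = d * (N / d) + d * (i / d) + d := by ring
    rw [e]
    generalize d * (N / d) = a at *
    generalize d * (i / d) = b at *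
    generalize N % d = c at *
    generalize i % d = c' at *
    omega
  rw [h1]
  have h4 : ((Ioc i (N + i)).filter (fun n => d ∣ n)).card ≤ N / d + 1 := by omega
  calc (((Ioc i (N + i)).filter (fun n => d ∣ n)).card : ℝ) ≤ ((N / d + 1 : ℕ) : ℝ) := by
        exact_mod_cast h4
    _ ≤ N / d + 1 := by
        push_cast
        have : ((N / d : ℕ) : ℝ) ≤ (N : ℝ) / d := Nat.cast_div_le
        linarith

/-- the two functions agree outside of the multiples of high powers -/
theorem agree (y M L m : ℕ) (hM : M ≤ y) (hm : 0 < m)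
    (h : ∀ p ∈ prs 0 M ∪ prs M y, ¬ p ^ (cap M L p + 1) ∣ m) :
    ∑ p ∈ prs 0 M ∪ prs M y, val p (cap M L p) m = Om y m := by
  have hS : prs 0 M ∪ prs M y = (Ioc 0 y).filter Nat.Prime := by
    ext p
    simp only [prs, mem_union, mem_filter, mem_Ioc]
    constructor
    · rintro (⟨⟨h1, h2⟩, h3⟩ | ⟨⟨h1, h2⟩, h3⟩)
      · exact ⟨⟨h1, by omega⟩, h3⟩
      · exact ⟨⟨by omega, h2⟩, h3⟩
    · rintro ⟨⟨h1, h2⟩, h3⟩
      rcases Nat.lt_or_ge M p with h4 | h4
      · exact Or.inr ⟨⟨h4, h2⟩, h3⟩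
      · exact Or.inl ⟨⟨h1, h4⟩, h3⟩
  rw [hS] at h ⊢
  have h1 : ∀ p ∈ (Ioc 0 y).filter Nat.Prime, val p (cap M L p) m = m.factorization p := by
    intro p hp
    have hpp : p.Prime := (mem_filter.1 hp).2
    have h2 := h p hp
    have h3 : m.factorization p ≤ cap M L p := by
      by_contra hc
      apply h2
      rw [hpp.pow_dvd_iff_le_factorization hm.ne']
      omega
    unfold val
    have h4 : (Icc 1 (cap M L p)).filter (fun a => p ^ a ∣ m) = Icc 1 (m.factorization p) := by
      ext a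
      simp only [mem_filter, mem_Icc]
      rw [hpp.pow_dvd_iff_le_factorization hm.ne']
      omega
    rw [h4]
    simp
  rw [Finset.sum_congr rfl h1]
  unfold Om
  symm
  apply Finset.sum_subset_zero_on_sdiff
  · intro p hp
    simp only [mem_filter, Nat.mem_primeFactors, mem_Ioc] at hp ⊢
    exact ⟨⟨hp.1.1.pos, hp.2⟩, hp.1.1⟩
  · intro p hp
    simp only [mem_sdiff, mem_filter, Nat.mem_primeFactors, mem_Ioc] at hp
    apply Nat.factorization_eq_zero_of_not_dvd
    intro hd
    exact hp.2 ⟨⟨hp.1.2, hd, hm.ne'⟩, hp.1.1.2⟩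
  · intro p _
    rfl

/-- the sum of the densities -/
theorem dens (y M L : ℕ) (hL : 1 ≤ L) (hM : 1 ≤ M) (hMy : M ≤ y) :
    ∑ p ∈ prs 0 M ∪ prs M y, 1 / (p : ℝ) ^ (cap M L p + 1) ≤ 2 / (2 : ℝ) ^ L + 1 / M := by
  have hdis : Disjoint (prs 0 M) (prs M y) := by
    rw [Finset.disjoint_left]
    intro p hp hp'
    simp only [prs, mem_filter, mem_Ioc] at hp hp'
    omega
  rw [Finset.sum_union hdis]
  have h1 : ∑ p ∈ prs 0 M, 1 / (p : ℝ) ^ (cap M L p + 1) ≤ 2 / (2 : ℝ) ^ L := by
    have h2 : ∑ p ∈ prs 0 M, 1 / (p : ℝ) ^ (cap M L p + 1) ≤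
        ∑ m ∈ Ioc 1 M, 2 / (2 : ℝ) ^ L * ((m : ℝ) ^ 2)⁻¹ := by
      have hsub : prs 0 M ⊆ Ioc 1 M := by
        intro p hp
        simp only [prs, mem_filter, mem_Ioc] at hp ⊢
        exact ⟨hp.2.one_lt, hp.1.2⟩
      refine (Finset.sum_le_sum fun p hp => ?_).trans
        (Finset.sum_le_sum_of_subset_of_nonneg hsub fun m _ _ => by positivity)
      have hp' := hp
      simp only [prs, mem_filter, mem_Ioc] at hp'
      have hc : cap M L p = L := by
        unfold cap
        rw [if_pos hp'.1.2]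
      rw [hc]
      have hp2 : (2 : ℝ) ≤ p := by exact_mod_cast hp'.2.two_le
      obtain ⟨l, rfl⟩ : ∃ l, L = l + 1 := ⟨L - 1, by omega⟩
      have e1 : (p : ℝ) ^ (l + 1 + 1) = (p : ℝ) ^ l * (p : ℝ) ^ 2 := by ring
      have e2 : 2 / (2 : ℝ) ^ (l + 1) = 1 / (2 : ℝ) ^ l := by
        rw [pow_succ]
        field_simp
      rw [e1, e2, one_div, mul_inv, one_div]
      apply mul_le_mul_of_nonneg_right _ (by positivity)
      exact inv_anti₀ (by positivity) (pow_le_pow_left₀ (by norm_num) hp2 l)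
    refine h2.trans ?_
    rw [← Finset.mul_sum]
    have h3 : ∑ m ∈ Ioc 1 M, ((m : ℝ) ^ 2)⁻¹ ≤ 1 := by
      have := sum_Ioc_inv_sq_le_sub (α := ℝ) (k := 1) (n := M) one_ne_zero hM
      refine this.trans ?_
      simp
    calc 2 / (2 : ℝ) ^ L * ∑ m ∈ Ioc 1 M, ((m : ℝ) ^ 2)⁻¹ ≤ 2 / (2 : ℝ) ^ L * 1 :=
          mul_le_mul_of_nonneg_left h3 (by positivity)
      _ = 2 / (2 : ℝ) ^ L := mul_one _
  have h4 : ∑ p ∈ prs M y, 1 / (p : ℝ) ^ (cap M L p + 1) ≤ 1 / M := by
    have h5 : ∑ p ∈ prs M y, 1 / (p : ℝ) ^ (cap M L p + 1) ≤ ∑ m ∈ Ioc M y, ((m : ℝ) ^ 2)⁻¹ := by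
      have hsub : prs M y ⊆ Ioc M y := Finset.filter_subset _ _
      refine (Finset.sum_le_sum fun p hp => ?_).trans
        (Finset.sum_le_sum_of_subset_of_nonneg hsub fun m _ _ => by positivity)
      have hp' := hp
      simp only [prs, mem_filter, mem_Ioc] at hp'
      have hc : cap M L p = 1 := by
        unfold cap
        rw [if_neg (by omega)]
      rw [hc, one_div]
    refine h5.trans ((sum_Ioc_inv_sq_le_sub (α := ℝ) (k := M) (n := y) (by omega) hMy).trans ?_)
    rw [one_div]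
    have : (0 : ℝ) ≤ (y : ℝ)⁻¹ := by positivity
    linarith
  linarith

theorem t_EMP : S_EMP := by
  intro y M L N k hN hL hM hMy hk φ hφ
  set S := prs 0 M ∪ prs M y with hS
  have hprime : ∀ p ∈ S, p.Prime := by
    intro p hp
    simp only [hS, prs, mem_union, mem_filter] at hp
    rcases hp with hp | hp
    · exact hp.2
    · exact hp.2
  set D := Mo (cap M L) S with hD
  have hDpos : 0 < D := Finset.prod_pos fun p hp => pow_pos (hprime p hp).pos _
  set g : ℕ → ℝ := fun n => φ (fun i : Fin k => ∑ p ∈ S, val p (cap M L p) (n + i)) with hg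
  set h : ℕ → ℝ := fun n => φ (fun i : Fin k => Om y (n + i)) with hh
  have hper : ∀ n, g (n + D) = g n := by
    intro n
    simp only [hg]
    congr 1
    funext i
    refine Finset.sum_congr rfl fun p hp => ?_
    have hdvd : p ^ cap M L p ∣ D := Finset.dvd_prod_of_mem (fun p => p ^ cap M L p) hp
    refine Pool.Agent.H23.OM.val_congr hdvd ?_
    have : n + D + (i : ℕ) = n + i + D := by ring
    rw [this]
    simp [Nat.ModEq]
  have hJ : J (cap M L) S φ = (∑ n ∈ range D, g n) / D := rfl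
  have hE : emp y N φ = (∑ n ∈ Icc 1 N, h n) / N := rfl
  have hIcc : ∑ n ∈ Icc 1 N, g n = ∑ n ∈ range N, g (n + 1) := by
    rw [Finset.range_eq_Ico, Finset.sum_Ico_add' (fun n => g n) 0 N 1]
    rfl
  have hshift : ∑ n ∈ range D, g (n + 1) = ∑ n ∈ range D, g n := by
    have e1 := Finset.sum_range_succ' g D
    have e2 := Finset.sum_range_succ g D
    have e3 : g D = g 0 := by
      have := hper 0
      rwa [zero_add] at this
    linarith
  have hN' : (0 : ℝ) < N := by exact_mod_cast hN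
  have hp1 := per_sum (fun n => g (n + 1)) D N hDpos hN
    (fun n => by
      have := hper (n + 1)
      rw [show n + D + 1 = n + 1 + D by ring]
      exact this) (fun n => hφ _)
  rw [hshift, ← hIcc] at hp1
  -- the exceptional integers
  have hbad : ∀ n ∈ Icc 1 N, |h n - g n| ≤
      ∑ i : Fin k, ∑ p ∈ S, if p ^ (cap M L p + 1) ∣ n + i then (2 : ℝ) else 0 := by
    intro n hn
    have hnn : ∀ i : Fin k, 0 ≤ ∑ p ∈ S, if p ^ (cap M L p + 1) ∣ n + i then (2 : ℝ) else 0 :=
      fun i => Finset.sum_nonneg fun p _ => by split_ifs <;> norm_num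
    by_cases hex : ∃ i : Fin k, ∃ p ∈ S, p ^ (cap M L p + 1) ∣ n + i
    · obtain ⟨i, p, hp, hd⟩ := hex
      have h1 : |h n - g n| ≤ 2 := by
        have a1 := hφ (fun i : Fin k => Om y (n + i))
        have a2 := hφ (fun i : Fin k => ∑ p ∈ S, val p (cap M L p) (n + i))
        calc |h n - g n| ≤ |h n| + |g n| := abs_sub _ _
          _ ≤ 1 + 1 := add_le_add a1 a2
          _ = 2 := by norm_num
      refine h1.trans ?_
      have h2 : (2 : ℝ) ≤ ∑ p ∈ S, if p ^ (cap M L p + 1) ∣ n + i then (2 : ℝ) else 0 := by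
        have := Finset.single_le_sum
          (f := fun p => if p ^ (cap M L p + 1) ∣ n + (i : ℕ) then (2 : ℝ) else 0)
          (fun p _ => by split_ifs <;> norm_num) hp
        simpa [hd] using this
      exact h2.trans (Finset.single_le_sum
        (f := fun i : Fin k => ∑ p ∈ S, if p ^ (cap M L p + 1) ∣ n + (i : ℕ) then (2 : ℝ) else 0)
        (fun i _ => hnn i) (Finset.mem_univ i))
    · have heq : h n = g n := by
        simp only [hh, hg]
        congr 1
        funext i
        symm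
        apply agree y M L (n + i) hMy (by
          have := (mem_Icc.1 hn).1
          omega)
        intro p hp hd
        exact hex ⟨i, p, hp, hd⟩
      rw [heq, sub_self, abs_zero]
      exact Finset.sum_nonneg fun i _ => hnn i
  have hcard : (S.card : ℝ) ≤ y := by
    have h1 : S ⊆ Ioc 0 y := by
      intro p hp
      simp only [hS, prs, mem_union, mem_filter, mem_Ioc] at hp ⊢
      rcases hp with hp | hp
      · exact ⟨hp.1.1, by omega⟩
      · exact ⟨by omega, hp.1.2⟩
    have h2 := Finset.card_le_card h1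
    rw [Nat.card_Ioc] at h2
    exact_mod_cast h2
  have hsum : |∑ n ∈ Icc 1 N, h n - ∑ n ∈ Icc 1 N, g n| ≤
      2 * k * (N * (2 / (2 : ℝ) ^ L + 1 / M) + y) := by
    rw [← Finset.sum_sub_distrib]
    refine (Finset.abs_sum_le_sum_abs _ _).trans ((Finset.sum_le_sum hbad).trans ?_)
    rw [Finset.sum_comm]
    have h1 : ∀ i : Fin k, ∑ n ∈ Icc 1 N, ∑ p ∈ S,
        (if p ^ (cap M L p + 1) ∣ n + i then (2 : ℝ) else 0) ≤
        2 * (N * (2 / (2 : ℝ) ^ L + 1 / M) + y) := by
      intro i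
      rw [Finset.sum_comm]
      have h2 : ∀ p ∈ S, ∑ n ∈ Icc 1 N, (if p ^ (cap M L p + 1) ∣ n + i then (2 : ℝ) else 0) ≤
          2 * (N * (1 / (p : ℝ) ^ (cap M L p + 1)) + 1) := by
        intro p hp
        rw [← Finset.sum_filter, Finset.sum_const, nsmul_eq_mul, mul_comm]
        have h3 := cnt_dvd (p ^ (cap M L p + 1)) N i (pow_pos (hprime p hp).pos _)
        push_cast at h3
        rw [mul_one_div]
        linarith
      refine (Finset.sum_le_sum h2).trans ?_
      rw [← Finset.mul_sum, Finset.sum_add_distrib, ← Finset.mul_sum, Finset.sum_const,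
        nsmul_eq_mul, mul_one]
      have h4 := mul_le_mul_of_nonneg_left (dens y M L hL hM hMy) hN'.le
      linarith
    refine (Finset.sum_le_sum fun i _ => h1 i).trans ?_
    rw [Finset.sum_const, Finset.card_univ, Fintype.card_fin, nsmul_eq_mul]
    exact le_of_eq (by ring)
  have hmain : |emp y N φ - (∑ n ∈ Icc 1 N, g n) / N| ≤
      2 * k * (2 / (2 : ℝ) ^ L + 1 / M + y / N) := by
    rw [hE, ← sub_div, abs_div, abs_of_pos hN', div_le_iff₀ hN']
    refine hsum.trans (le_of_eq ?_)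
    field_simp
  rw [hJ]
  calc |emp y N φ - (∑ n ∈ range D, g n) / D|
      = |(emp y N φ - (∑ n ∈ Icc 1 N, g n) / N) +
        ((∑ n ∈ Icc 1 N, g n) / N - (∑ n ∈ range D, g n) / D)| := by ring_nf
    _ ≤ _ := abs_add_le _ _
    _ ≤ _ := add_le_add hmain hp1

end Pool.Agent.H15.OM
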