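import Pool.Agent.H19.OM.Stm3
import Pool.Agent.H15.OM.Emp

/-!
# Project OM, module K5: the caps
-/

set_option autoImplicit false

namespace Pool.Agent.H15.OM

open Finset hiding val
open Pool.Agent.H19.OM

theorem t_K5 : S_K5 := by
  intro y M L N k hN hL hM hMy φ hφ
  set S := prs 0 M ∪ prs M y with hS
  have hprime : ∀ p ∈ S, p.Prime := by
    intro p hp
    simp only [hS, prs, mem_union, mem_filter] at hp
    rcases hp with hp | hp
    · exact hp.2
    · exact hp.2
  set g : ℕ → ℝ := fun n => φ (fun i : Fin k => ∑ p ∈ S, val p (cap M L p) (n + i)) with hg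
  set h : ℕ → ℝ := fun n => φ (fun i : Fin k => Om y (n + i)) with hh
  have hE : emp y N φ = (∑ n ∈ Icc 1 N, h n) / N := rfl
  have hN' : (0 : ℝ) < N := by exact_mod_cast hN
  -- the exceptional integers
  have hbad : ∀ n ∈ Icc 1 N, |h n - g n| ≤
      ∑ i : Fin k, ∑ p ∈ S, if p ^ (cap M L p + 1) ∣ n + i then (2 : ℝ) else 0 := by
    intro n hn
    have hnn : ∀ i : Fin k, 0 ≤ ∑ p ∈ S, if p ^ (cap M L p + 1) ∣ n + i then (2 : ℝ) else 0 :=
      fun i => Finset.sum_nonneg fun p _ => by split_ifs <;> norm_num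
    by_cases hex : ∃ i : Fin k, ∃ p ∈ S, p ^ (cap M L p + 1) ∣ n + i
    · obtain ⟨i, p, hp, hd⟩ := hex
      have h1 : |h n - g n| ≤ 2 := by
        have a1 := hφ (fun i : Fin k => Om y (n + i))
        have a2 := hφ (fun i : Fin k => ∑ p ∈ S, val p (cap M L p) (n + i))
        calc |h n - g n| ≤ |h n| + |g n| := abs_sub _ _
          _ ≤ 1 + 1 := add_le_add a1 a2
          _ = 2 := by norm_num
      refine h1.trans ?_
      have h2 : (2 : ℝ) ≤ ∑ p ∈ S, if p ^ (cap M L p + 1) ∣ n + i then (2 : ℝ) else 0 := by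
        have := Finset.single_le_sum
          (f := fun p => if p ^ (cap M L p + 1) ∣ n + (i : ℕ) then (2 : ℝ) else 0)
          (fun p _ => by split_ifs <;> norm_num) hp
        simpa [hd] using this
      exact h2.trans (Finset.single_le_sum
        (f := fun i : Fin k => ∑ p ∈ S, if p ^ (cap M L p + 1) ∣ n + (i : ℕ) then (2 : ℝ) else 0)
        (fun i _ => hnn i) (Finset.mem_univ i))
    · have heq : h n = g n := by
        simp only [hh, hg]
        congr 1
        funext i
        symm
        apply agree y M L (n + i) hMy (by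
          have := (mem_Icc.1 hn).1
          omega)
        intro p hp hd
        exact hex ⟨i, p, hp, hd⟩
      rw [heq, sub_self, abs_zero]
      exact Finset.sum_nonneg fun i _ => hnn i
  have hcard : (S.card : ℝ) ≤ y := by
    have h1 : S ⊆ Ioc 0 y := by
      intro p hp
      simp only [hS, prs, mem_union, mem_filter, mem_Ioc] at hp ⊢
      rcases hp with hp | hp
      · exact ⟨hp.1.1, by omega⟩
      · exact ⟨by omega, hp.1.2⟩
    have h2 := Finset.card_le_card h1
    rw [Nat.card_Ioc] at h2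
    exact_mod_cast h2
  have hsum : |∑ n ∈ Icc 1 N, h n - ∑ n ∈ Icc 1 N, g n| ≤
      2 * k * (N * (2 / (2 : ℝ) ^ L + 1 / M) + y) := by
    rw [← Finset.sum_sub_distrib]
    refine (Finset.abs_sum_le_sum_abs _ _).trans ((Finset.sum_le_sum hbad).trans ?_)
    rw [Finset.sum_comm]
    have h1 : ∀ i : Fin k, ∑ n ∈ Icc 1 N, ∑ p ∈ S,
        (if p ^ (cap M L p + 1) ∣ n + i then (2 : ℝ) else 0) ≤
        2 * (N * (2 / (2 : ℝ) ^ L + 1 / M) + y) := by
      intro i
      rw [Finset.sum_comm]
      have h2 : ∀ p ∈ S, ∑ n ∈ Icc 1 N, (if p ^ (cap M L p + 1) ∣ n + i then (2 : ℝ) else 0) ≤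
          2 * (N * (1 / (p : ℝ) ^ (cap M L p + 1)) + 1) := by
        intro p hp
        rw [← Finset.sum_filter, Finset.sum_const, nsmul_eq_mul, mul_comm]
        have h3 := cnt_dvd (p ^ (cap M L p + 1)) N i (pow_pos (hprime p hp).pos _)
        push_cast at h3
        rw [mul_one_div]
        linarith
      refine (Finset.sum_le_sum h2).trans ?_
      rw [← Finset.mul_sum, Finset.sum_add_distrib, ← Finset.mul_sum, Finset.sum_const,
        nsmul_eq_mul, mul_one]
      have h4 := mul_le_mul_of_nonneg_left (dens y M L hL hM hMy) hN'.le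
      linarith
    refine (Finset.sum_le_sum fun i _ => h1 i).trans ?_
    rw [Finset.sum_const, Finset.card_univ, Fintype.card_fin, nsmul_eq_mul]
    exact le_of_eq (by ring)
  have hmain : |emp y N φ - (∑ n ∈ Icc 1 N, g n) / N| ≤
      2 * k * (2 / (2 : ℝ) ^ L + 1 / M + y / N) := by
    rw [hE, ← sub_div, abs_div, abs_of_pos hN', div_le_iff₀ hN']
    refine hsum.trans (le_of_eq ?_)
    field_simp
  exact hmain

end Pool.Agent.H15.OM
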